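import Pool.Agent.H7.CP.Targets3
import Pool.Agent.H64.CP.CMR

/-!
# (CMA) a set which forces a large Mitchell rank (MP_e37c09_lc)
-/

open Ordinal Cardinal Order Set
open scoped ZFSet

universe u

namespace Pool.Agent.H40.CP.CMA

open _root_.HD
open Pool.Agent.H64.HDA.DN (mge_iff do_sInf do_succ)
open Pool.Agent.H63.HDA.LI (os_inter os_congr os_sub eq_os)
open Pool.Agent.H64.CP.CMR

theorem X : T_CMA.{u} := by
  intro ν θ hp hall
  have hLSM : T_LSM.{u} := Pool.Agent.H35.CP.LOS.X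
  obtain ⟨en, hen⟩ := All.en.{u}
  obtain ⟨f, hf, hf1, hf2⟩ := hp
  have hDG := All.dgc en hen
  have hE : DO fun w => w 0 ∈ E en (w 1) := (t_EA en hen).1
  obtain ⟨m, hm⟩ : ∃ m : Ordinal.{u} → Ordinal.{u}, m = fun ζ => sInf {c | MGe ν ζ (en c)} :=
    ⟨_, rfl⟩
  have hm1 : ∀ ζ < θ, MGe ν ζ (en (m ζ)) := by
    intro ζ hζ
    obtain ⟨U, hU⟩ := hall ζ hζ
    have h1 : HMeas ν U := by
      rw [mge_iff] at hU
      exact hU.1
    obtain ⟨e, he⟩ := (hen.od U).1 h1.hod.od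
    have : m ζ ∈ {c | MGe ν ζ (en c)} := by
      rw [hm]
      exact csInf_mem ⟨e, by rw [Set.mem_ofPred_eq, he]; exact hU⟩
    exact this
  have hm2 : DR fun a b => b = m a := by
    have h1 : DO fun w => w 1 = sInf {z | MGe ν (w 0) (en z)} :=
      do_sInf (S := fun z w => MGe ν (w 0) (en z)) (DO.sub
        (R := fun n w => MGe n (w 1) (en (w 0))) ν
        (DO.s3 (X := fun a b c => MGe a b (en c)) hDG 0 2 1)) 1
    rw [hm]
    exact h1
  -- the set `A`
  obtain ⟨P, hP⟩ : ∃ P : Ordinal.{u} → Ordinal.{u} → Prop, P = fun n e => ∃ ζ < θ,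
    ZFSet.pair (os n {a | ∃ d, d = dbl a ∧ d ∈ E en e}) ζ.toZFSet ∈ f ∧
    ∃ d, d = m ζ ∧ os n {a | ∃ c, c = dbl a ∧ ∃ c', c' = succ c ∧ c' ∈ E en e} ∈ en d :=
    ⟨_, rfl⟩
  have hPD : DO fun w => P (w 0) (w 1) := by
    rw [hP]
    refine DO.exLtc (R := fun ζ w => ZFSet.pair (os (w 0) {a | ∃ d, d = dbl a ∧
      d ∈ E en (w 1)}) ζ.toZFSet ∈ f ∧ ∃ d, d = m ζ ∧ os (w 0) {a | ∃ c, c = dbl a ∧
      ∃ c', c' = succ c ∧ c' ∈ E en (w 1)} ∈ en d) θ (DO.and ?_ (DO.ex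
      (R := fun d w => d = m (w 0) ∧ os (w 1) {a | ∃ c, c = dbl a ∧
      ∃ c', c' = succ c ∧ c' ∈ E en (w 2)} ∈ en d) (DO.and ?_ ?_)))
    · exact DO.setArg (R := fun s v => ZFSet.pair s (v 0) ∈ f)
        (DZ.od (R := fun f v => ZFSet.pair (v 0) (v 1) ∈ f) hf.od (loc_pmem 1 2 0).dz)
        (X := fun a w => ∃ d, d = dbl a ∧ d ∈ E en (w 2))
        (DO.ex (R := fun d w => d = dbl (w 0) ∧ d ∈ E en (w 3)) ((do_dbl 0 1).and
          (DO.s2 (X := fun a b => a ∈ E en b) hE 0 4))) 1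
    · exact DO.s2 (X := fun a b => b = m a) hm2 1 0
    · exact Pool.Agent.H64.HDA.DN.doMem hen (X := fun a w => ∃ c, c = dbl a ∧
        ∃ c', c' = succ c ∧ c' ∈ E en (w 3))
        (DO.ex (R := fun c w => c = dbl (w 0) ∧ ∃ c', c' = succ c ∧ c' ∈ E en (w 4))
          ((do_dbl 0 1).and (DO.ex (R := fun c' w => c' = succ (w 0) ∧ c' ∈ E en (w 5))
            ((do_succ 0 1).and (DO.s2 (X := fun a b => a ∈ E en b) hE 0 6))))) 2 0
  have hPν : DO fun w => P ν (w 0) := DO.sub (R := fun n w => P n (w 0)) ν hPD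
  obtain ⟨A, hA⟩ : ∃ A, A = coll en ν (P ν) := ⟨_, rfl⟩
  have hAH : HOD A := by rw [hA]; exact hod_coll hen hPν ν
  refine ⟨A, hAH, fun x hx => by
    rw [hA] at hx
    exact (mem_coll.1 hx).1, fun U hU hcp => ?_⟩
  obtain ⟨h, hh, hUA⟩ := hcp
  have hNU : NMe ν U := (All.hmi ν U).1 hU
  have hlim := hNU.lim
  refine (mge_iff ν θ U).2 ⟨hU, fun ζ hζ => ⟨en (m ζ), hm1 ζ hζ, ?_⟩⟩
  have hNW : NMe ν (en (m ζ)) := by
    have h1 := hm1 ζ hζ
    rw [mge_iff] at h1
    exact (All.hmi _ _).1 h1.1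
  obtain ⟨x, hx, hxν, hxf⟩ := hf2 ζ hζ
  -- the sum
  have dsm : ∀ {X : Set Ordinal.{u}}, DS X → DS (sm x X) := fun {X} hX =>
    do_sm hx.od (X := fun a _ => a ∈ X) (hX.s1 0)
  have hsum : ∀ X : Set Ordinal.{u}, DS X →
      (os ν (sm x X) ∈ A ↔ os ν X ∈ en (m ζ)) := by
    intro X hX
    have e1 : ∀ e, en e = os ν (sm x X) →
        os ν {a | ∃ d, d = dbl a ∧ d ∈ E en e} = x := by
      intro e he
      conv_rhs => rw [eq_os hxν]
      refine os_congr fun a ha => ?_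
      show (∃ d, d = dbl a ∧ d.toZFSet ∈ en e) ↔ a.toZFSet ∈ x
      rw [he]
      constructor
      · rintro ⟨d, rfl, h2⟩
        exact dbl_mem_sm.1 (ord_mem_os.1 h2).2
      · intro h2
        exact ⟨_, rfl, ord_mem_os.2 ⟨(lt_succ _).trans (dbl_lt hlim ha), dbl_mem_sm.2 h2⟩⟩
    have e2 : ∀ e, en e = os ν (sm x X) →
        os ν {a | ∃ c, c = dbl a ∧ ∃ c', c' = succ c ∧ c' ∈ E en e} = os ν X := by
      intro e he
      refine os_congr fun a ha => ?_
      show (∃ c, c = dbl a ∧ ∃ c', c' = succ c ∧ c'.toZFSet ∈ en e) ↔ a ∈ X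
      rw [he]
      constructor
      · rintro ⟨c, rfl, c', rfl, h2⟩
        exact succ_mem_sm.1 (ord_mem_os.1 h2).2
      · intro h2
        exact ⟨_, rfl, _, rfl, ord_mem_os.2 ⟨dbl_lt hlim ha, succ_mem_sm.2 h2⟩⟩
    rw [hA, mem_coll, hP]
    constructor
    · rintro ⟨-, e, he, ζ', hζ', h1, d, rfl, h2⟩
      rw [e1 e he] at h1
      rw [e2 e he] at h2
      rwa [hf1 x ζ ζ' hxf h1]
    · intro h1
      obtain ⟨e, he⟩ := (hen.od _).1 (od_os (dsm hX) ν)
      refine ⟨os_sub _ _, e, he, ζ, hζ, ?_, _, rfl, ?_⟩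
      · rw [e1 e he]
        exact hxf
      · rw [e2 e he]
        exact h1
  -- the codes
  obtain ⟨R, hR⟩ : ∃ R : Ordinal.{u} → Ordinal.{u} → Prop, R = fun b e =>
    ZFSet.pair b.toZFSet (os b {a | a ∈ sm x {a | a ∈ E en e}}) ∈ h := ⟨_, rfl⟩
  have hRD : DO fun w => R (w 1) (w 0) := by
    rw [hR]
    refine DO.setArg (R := fun s v => ZFSet.pair (v 1) s ∈ h) ?_
      (X := fun c w => c ∈ sm x {a | a ∈ E en (w 0)}) ?_ 1
    · exact DZ.od (R := fun h v => ZFSet.pair (v 2) (v 0) ∈ h) hh.od (loc_pmem 3 1 0).dz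
    · exact do_sm hx.od (X := fun a w => a ∈ E en (w 0))
        (DO.s2 (X := fun a b => a ∈ E en b) hE 0 1)
  have hRb : ∀ b, DO fun w => R b (w 0) := fun b =>
    DO.sub (R := fun n w => R n (w 0)) b (hRD.ren fun n => if n = 0 then 1 else 0)
  obtain ⟨c, hc⟩ : ∃ c : Ordinal.{u} → Ordinal.{u},
    c = fun b => sInf {e | en e = coll en b (R b)} := ⟨_, rfl⟩
  have hc1 : ∀ b, en (c b) = coll en b (R b) := by
    intro b
    obtain ⟨e, he⟩ := (hen.od _).1 (od_coll hen (hRb b) b)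
    have : c b ∈ {e | en e = coll en b (R b)} := by
      rw [hc]
      exact csInf_mem ⟨e, he⟩
    exact this
  have hc2 : DR fun a b => b = c a := by
    have h1 : DO fun w => w 1 = sInf {z | en z = coll en (w 0) (fun e => R (w 0) e)} :=
      do_sInf (S := fun z w => en z = coll en (w 0) (fun e => R (w 0) e))
        (do_coll hen (R := fun e w => R (w 1) e) (DO.s2 (X := fun a b => R b a) hRD 0 2) 0 1) 1
    rw [hc]
    exact h1
  refine (hLSM en hen ν U (en (m ζ)) c hc2 hNU hNW (fun b => ?_) fun X hX => ?_).2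
  · rw [hc1 b]
    exact ⟨hod_coll hen (hRb b) b, fun y hy => (mem_coll.1 hy).1⟩
  · rw [← hsum X hX, hUA _ (hod_os (dsm hX) ν) (os_sub _ _)]
    have : ZFSet.sep (fun b => ZFSet.pair b (os ν (sm x X) ∩ b) ∈ h) ν.toZFSet =
        os ν {b | os b X ∈ en (c b)} := by
      ext z
      rw [ZFSet.mem_sep, mem_os]
      have k1 : ∀ b < ν, (ZFSet.pair b.toZFSet (os ν (sm x X) ∩ b.toZFSet) ∈ h ↔
          os b X ∈ en (c b)) := by
        intro b hb
        have k2 : ∀ e, en e = os b X → os b {a | a ∈ sm x {a | a ∈ E en e}} =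
            os b (sm x X) := by
          intro e he
          refine os_congr fun d hd => ?_
          show (_ ∨ _) ↔ (_ ∨ _)
          refine or_congr Iff.rfl ?_
          constructor
          · rintro ⟨a, ha, h1⟩
            refine ⟨a, ?_, h1⟩
            have : a.toZFSet ∈ en e := ha
            rw [he] at this
            exact (ord_mem_os.1 this).2
          · rintro ⟨a, ha, h1⟩
            refine ⟨a, ?_, h1⟩
            show a.toZFSet ∈ en e
            rw [he]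
            refine ord_mem_os.2 ⟨?_, ha⟩
            rw [h1] at hd
            exact (le_dbl a).trans_lt ((lt_succ _).trans hd)
        rw [os_inter hb, hc1 b, mem_coll, hR]
        constructor
        · intro h1
          obtain ⟨e, he⟩ := (hen.od _).1 (od_os hX b)
          refine ⟨os_sub _ _, e, he, ?_⟩
          beta_reduce
          rw [k2 e he]
          exact h1
        · rintro ⟨-, e, he, h1⟩
          rwa [k2 e he] at h1
      constructor
      · rintro ⟨h1, h2⟩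
        obtain ⟨b, hb, rfl⟩ := mem_toZFSet_iff.1 h1
        exact ⟨b, hb, (k1 b hb).1 h2, rfl⟩
      · rintro ⟨b, hb, h2, rfl⟩
        exact ⟨toZFSet_mem_toZFSet_iff.2 hb, (k1 b hb).2 h2⟩
    rw [this]

end Pool.Agent.H40.CP.CMA
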