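import Pool.Agent.H7.CP.Targets3
import Pool.Agent.H18.CP.CPR

/-!
# (CPU) capturing by a given measure (MP_e37c09_lc)
-/

open Ordinal Cardinal Order Set
open scoped ZFSet

universe u

namespace Pool.Agent.H40.CP.CPU

open _root_.HD
open Pool.Agent.H18.CP.CPR (hh hod_hh pair_mem_hh)

theorem X : T_CPU.{u} := by
  intro H ν U A hH hU hA hAν hAU
  refine ⟨hh H ν, hod_hh hH ν, fun x hx hxν => ?_⟩
  have hY : DS {a : Ordinal.{u} | a.toZFSet ∈ x} := hx.od.ds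
  have h1 : x = os ν {a : Ordinal.{u} | a.toZFSet ∈ x} := by
    ext z
    rw [mem_os]
    constructor
    · intro hz
      obtain ⟨a, ha, rfl⟩ := mem_toZFSet_iff.1 (hxν hz)
      exact ⟨a, ha, hz, rfl⟩
    · rintro ⟨a, _, h, rfl⟩
      exact h
  have h2 : (ν.toZFSet).sep (fun b => ZFSet.pair b (x ∩ b) ∈ hh H ν) =
      os ν {ξ | H ξ {a : Ordinal.{u} | a.toZFSet ∈ x}} := by
    ext z
    rw [ZFSet.mem_sep, mem_os]
    have key : ∀ a < ν, ZFSet.pair a.toZFSet (x ∩ a.toZFSet) ∈ hh H ν ↔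
        H a {a : Ordinal.{u} | a.toZFSet ∈ x} := by
      intro a ha
      rw [pair_mem_hh]
      have h3 : x ∩ a.toZFSet = os a {a : Ordinal.{u} | a.toZFSet ∈ x} := by
        ext z
        rw [ZFSet.mem_inter, mem_os]
        constructor
        · rintro ⟨h4, h5⟩
          obtain ⟨b, hb, rfl⟩ := mem_toZFSet_iff.1 h5
          exact ⟨b, hb, h4, rfl⟩
        · rintro ⟨b, hb, h4, rfl⟩
          exact ⟨h4, toZFSet_mem_toZFSet_iff.2 hb⟩
      have h4 : HOD (x ∩ a.toZFSet) := by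
        rw [h3]
        exact hod_os hY a
      have h5 : x ∩ a.toZFSet ⊆ a.toZFSet := fun z hz => (ZFSet.mem_inter.1 hz).2
      have h6 : H a {c : Ordinal.{u} | c.toZFSet ∈ x ∩ a.toZFSet} ↔
          H a {a : Ordinal.{u} | a.toZFSet ∈ x} := by
        refine hH.ext a _ _ fun c hc => ?_
        show c.toZFSet ∈ x ∩ a.toZFSet ↔ c.toZFSet ∈ x
        rw [ZFSet.mem_inter]
        exact and_iff_left (toZFSet_mem_toZFSet_iff.2 hc)
      rw [h6]
      exact ⟨fun h => h.2.2.2, fun h => ⟨ha, h4, h5, h⟩⟩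
    constructor
    · rintro ⟨h3, h4⟩
      obtain ⟨a, ha, rfl⟩ := mem_toZFSet_iff.1 h3
      exact ⟨a, ha, (key a ha).1 h4, rfl⟩
    · rintro ⟨a, ha, h3, rfl⟩
      exact ⟨toZFSet_mem_toZFSet_iff.2 ha, (key a ha).2 h3⟩
  rw [h2, ← hAU _ hY, ← h1]

end Pool.Agent.H40.CP.CPU
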