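import Pool.Agent.H7.CP.Targets
import Pool.Agent.H90.HDA.WZ

/-!
# MP_e37c09_lc, module CPW: capturing by the measure given by `(Th, gh)`
-/

set_option autoImplicit false

open Ordinal Cardinal Order Set
open scoped ZFSet

universe u

namespace Pool.Agent.H40.CP.CPW

open _root_.HD Pool.Agent.H90.HDA.WZ

theorem X (hCPR : T_CPR.{u}) : T_CPW.{u} := by
  intro en hen K lam Q f t X H ν d A hKr hK hEQ hHR hνK hcof hrep hcoh hLM hNM hpos hA hsub hiff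
  refine hCPR H ν _ A hHR hNM hA hsub ?_
  intro Y hY
  rw [hiff Y hY]
  obtain ⟨ζ, hζ, hζY⟩ := hrep Y hY
  set T := Th K X Q f t H with hT
  set g := gh K X Q f t H with hg
  have hlt : ∀ γ ∈ T, γ < ν → g γ < ν := fun γ h1 h2 => (hLM.1.ln.lt γ h1 h2).2.1
  have hlim : IsSuccLimit ν := hNM.lim
  -- the good points
  have hgood : ∀ γ ∈ T, γ < ν → Gdh K Q f t H γ (g γ) := by
    intro γ hγ _
    have h1 : ({ξ | γ < ξ ∧ ξ < K.ord ∧ ξ ∈ X ∧ Gdh K Q f t H γ ξ} : Set Ordinal.{u}).Nonempty := hγ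
    exact (csInf_mem h1).2.2.2
  have hZ : DS {ξ | H ξ Y} :=
    hHR.dfn (fun a _ => a ∈ Y) (hY.s1 (X := fun b => b ∈ Y) 0) 0
  rw [os_mem hlt hZ]
  -- the key equivalence
  have key : ∀ γ ∈ T, γ < ν → ζ < γ → (H (g γ) Y ↔ H ν Y) := by
    intro γ hγ hγν hζγ
    have h1 : H (g γ) Y ↔ H (g γ) {a | Q (f ζ) a} :=
      hHR.ext _ _ _ fun a ha => (hζY a (ha.trans (hlt γ hγ hγν))).symm
    have h2 : H ν Y ↔ H ν {a | Q (f ζ) a} := hHR.ext _ _ _ fun a ha => (hζY a ha).symm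
    rw [h1, h2, ← (hgood γ hγ hγν).2 ζ hζγ, hcoh ζ hζ]
  constructor
  · intro hH hP
    refine All.vb om ν (succ ζ) hlim (hlim.succ_lt hζ) (hP.mono fun γ hγ h3 _ => ?_)
    by_contra h4
    have h5 : ζ < γ := lt_of_not_ge fun h6 => h4 (lt_succ_iff.2 h6)
    exact h3.2 ((key γ h3.1.1 hγ h5).2 hH)
  · intro hN
    by_contra hH
    apply hN
    have hp : Pos om ν (Tc en t T g d) := hpos
    have hd := pos_diff All.va hcof hp (All.vb om ν (succ ζ) hlim (hlim.succ_lt hζ))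
    refine hd.mono fun γ hγ h3 _ => ⟨h3.1, fun h4 => hH ?_⟩
    have h5 : ζ < γ := lt_of_not_ge fun h6 => h3.2 (lt_succ_iff.2 h6)
    exact (key γ h3.1.1 hγ h5).1 h4

end Pool.Agent.H40.CP.CPW
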