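import Mathlib
import Pool.Agent.H57.CP.Targets

open Matrix

namespace Pool.Agent.H40.CP

open Pool.Agent.H57.CP

theorem toMatrix_rot (t d : ℝ) : LinearMap.toMatrix' (rot t d) =
    !![Real.cos t, -Real.sin t, 0, 0; Real.sin t, Real.cos t, 0, 0; 0, 0, d, 0; 0, 0, 0, 1] := by
  ext i j
  rw [LinearMap.toMatrix'_apply]
  fin_cases i <;> fin_cases j <;> simp [rot]

theorem det_rot (t d : ℝ) : LinearMap.det (rot t d) = d := by
  rw [← LinearMap.det_toMatrix', toMatrix_rot]
  simp [Matrix.det_succ_row_zero, Fin.sum_univ_succ, Fin.succAbove]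
  linear_combination d * Real.sin_sq_add_cos_sq t

theorem trace_eq' (A : V4 →ₗ[ℝ] V4) : LinearMap.trace ℝ V4 A = ∑ i, A (Pi.single i 1) i := by
  rw [LinearMap.trace_eq_matrix_trace ℝ (Pi.basisFun ℝ (Fin 4)), LinearMap.toMatrix_eq_toMatrix',
    Matrix.trace]
  refine Finset.sum_congr rfl fun i _ => ?_
  rw [Matrix.diag_apply, LinearMap.toMatrix'_apply]

theorem trace_rot (t d : ℝ) : LinearMap.trace ℝ V4 (rot t d) = 2 * Real.cos t + d + 1 := by
  rw [trace_eq', Fin.sum_univ_four]
  simp [rot]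
  ring

theorem toMatrix_ht (a b : V4) : LinearMap.toMatrix' (ht a b) =
    -(1 - (Matrix.of fun (i : Fin 4) (k : Fin 2) => ![2 * a i, -2 * b i] k) *
      (Matrix.of fun (k : Fin 2) (j : Fin 4) =>
        ![(![-1, -1, -1, 1] : Fin 4 → ℝ) j * a j, (![-1, -1, -1, 1] : Fin 4 → ℝ) j * b j] k)) := by
  ext i j
  rw [LinearMap.toMatrix'_apply]
  simp only [Matrix.neg_apply, Matrix.sub_apply, Matrix.mul_apply, Fin.sum_univ_two, Matrix.of_apply]
  fin_cases i <;> fin_cases j <;> simp [ht, mk] <;> ring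

theorem det_ht (a b : V4) (ha : mk a a = 1) (hb : mk b b = -1) (hab : mk a b = 0) :
    LinearMap.det (ht a b) = 1 := by
  rw [← LinearMap.det_toMatrix', toMatrix_ht, Matrix.det_neg, Matrix.det_one_sub_mul_comm]
  have h : (Matrix.of fun (k : Fin 2) (j : Fin 4) =>
        ![(![-1, -1, -1, 1] : Fin 4 → ℝ) j * a j, (![-1, -1, -1, 1] : Fin 4 → ℝ) j * b j] k) *
      (Matrix.of fun (i : Fin 4) (k : Fin 2) => ![2 * a i, -2 * b i] k) = !![2, 0; 0, 2] := by
    simp only [mk] at ha hb hab
    ext k l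
    simp only [Matrix.mul_apply, Matrix.of_apply, Fin.sum_univ_four]
    fin_cases k <;> fin_cases l <;> simp
    · linear_combination 2 * ha
    · linear_combination -2 * hab
    · linear_combination 2 * hab
    · linear_combination -2 * hb
  rw [h]
  simp [Matrix.det_fin_two]
  norm_num

theorem det : T_DET := by
  refine ⟨fun t d => ⟨det_rot t d, trace_rot t d⟩, fun a b ha hb hab => ⟨det_ht a b ha hb hab, ?_⟩⟩
  intro A
  have hA : ∀ (c : V4), mk c (A c) = ∑ i, mk c (A (Pi.single i 1)) * c i := by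
    intro c
    have hc : c = ∑ i, c i • (Pi.single i 1 : V4) := by
      ext j
      simp [Finset.sum_apply, Pi.single_apply]
    have h1 : A c = ∑ i, c i • A (Pi.single i 1) := by
      conv_lhs => rw [hc]
      rw [map_sum]
      simp
    rw [h1]
    simp only [mk, Fin.sum_univ_four, Pi.add_apply, Pi.smul_apply, smul_eq_mul]
    ring
  rw [trace_eq', trace_eq', hA a, hA b]
  simp only [Fin.sum_univ_four]
  simp only [Module.End.mul_apply, ht, LinearMap.coe_mk, AddHom.coe_mk]
  ring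

end Pool.Agent.H40.CP
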