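import Mathlib
import Pool.Agent.H57.CP.Targets

open Set Filter Topology

namespace Pool.Agent.H40.CP

open Pool.Agent.H57.CP

theorem ord_fin (g : Equiv.Perm H3) (x : H3) (n : ℕ) (hn : 0 < n) (h1 : (g ^ n) x = x)
    (h2 : ∀ m : ℕ, 0 < m → m < n → (g ^ m) x ≠ x) :
    {y | ∃ k : ℤ, y = (g ^ k : Equiv.Perm H3) x}.encard = n := by
  have hmul : ∀ q : ℤ, (g ^ ((n : ℤ) * q)) x = x := by
    intro q
    rw [zpow_mul, zpow_natCast]
    exact (Function.IsFixedPt.perm_zpow (show Function.IsFixedPt (⇑(g ^ n)) x from h1) q)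
  have himg : {y | ∃ k : ℤ, y = (g ^ k : Equiv.Perm H3) x} =
      (fun k : ℕ => (g ^ k) x) '' (↑(Finset.range n) : Set ℕ) := by
    ext y
    constructor
    · rintro ⟨k, rfl⟩
      have hn' : (n : ℤ) ≠ 0 := by exact_mod_cast hn.ne'
      have h3 : 0 ≤ k % (n : ℤ) := Int.emod_nonneg _ hn'
      have h4 : k % (n : ℤ) < n := Int.emod_lt_of_pos _ (by exact_mod_cast hn)
      obtain ⟨r, hr⟩ := Int.eq_ofNat_of_zero_le h3
      refine ⟨r, ?_, ?_⟩
      · rw [Finset.mem_coe, Finset.mem_range]
        have : (r : ℤ) < n := by rw [← hr]; exact h4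
        exact_mod_cast this
      · have hk : k = (r : ℤ) + (n : ℤ) * (k / (n : ℤ)) := by
          rw [← hr]
          exact (Int.emod_add_mul_ediv k n).symm
        show (g ^ r) x = (g ^ k) x
        rw [hk, zpow_add, Equiv.Perm.mul_apply, hmul, zpow_natCast]
    · rintro ⟨k, -, rfl⟩
      exact ⟨k, by simp⟩
  rw [himg, Set.InjOn.encard_image, Set.encard_coe_eq_coe_finsetCard, Finset.card_range]
  intro i hi j hj hij
  have hi' : i < n := by simpa using hi
  have hj' : j < n := by simpa using hj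
  have key : ∀ i j : ℕ, i < j → j < n → (g ^ i) x = (g ^ j) x → False := by
    intro i j hij' hj' he
    have h5 : j = i + (j - i) := by omega
    rw [h5, pow_add, Equiv.Perm.mul_apply] at he
    have h6 := (g ^ i).injective he
    exact h2 (j - i) (by omega) (by omega) h6.symm
  rcases lt_trichotomy i j with h | h | h
  · exact (key i j h hj' hij).elim
  · exact h
  · exact (key j i h hi' hij.symm).elim

theorem ord_inf (g : Equiv.Perm H3) (x : H3) (h : ∀ m : ℕ, 0 < m → (g ^ m) x ≠ x) :
    {y | ∃ k : ℤ, y = (g ^ k : Equiv.Perm H3) x}.encard = ⊤ := by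
  rw [Set.encard_eq_top_iff]
  refine Set.infinite_of_injective_forall_mem (f := fun k : ℕ => (g ^ k) x) ?_ ?_
  · intro i j hij
    have key : ∀ i j : ℕ, i < j → (g ^ i) x = (g ^ j) x → False := by
      intro i j hij' he
      have h5 : j = i + (j - i) := by omega
      rw [h5, pow_add, Equiv.Perm.mul_apply] at he
      have h6 := (g ^ i).injective he
      exact h (j - i) (by omega) h6.symm
    rcases lt_trichotomy i j with h | h | h
    · exact (key i j h hij).elim
    · exact h
    · exact (key j i h hij.symm).elim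
  · intro k
    exact ⟨k, by simp⟩

theorem ord : T_ORD := by
  classical
  intro g x
  have dich : (∃ m : ℕ, 0 < m ∧ (g ^ m) x = x ∧ (∀ l : ℕ, 0 < l → l < m → (g ^ l) x ≠ x)) ∨
      ∀ m : ℕ, 0 < m → (g ^ m) x ≠ x := by
    by_cases hex : ∃ m : ℕ, 0 < m ∧ (g ^ m) x = x
    · left
      refine ⟨Nat.find hex, (Nat.find_spec hex).1, (Nat.find_spec hex).2, ?_⟩
      intro l hl hlt he
      exact Nat.find_min hex hlt ⟨hl, he⟩
    · right
      intro m hm he
      exact hex ⟨m, hm, he⟩
  refine ⟨?_, ⟨?_, ?_⟩, ?_⟩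
  · intro n hn
    constructor
    · intro he
      rcases dich with ⟨m, hm, h1, h2⟩ | hinf
      · have h3 := ord_fin g x m hm h1 h2
        rw [he] at h3
        have h4 : n = m := by exact_mod_cast h3
        subst h4
        exact ⟨h1, h2⟩
      · have h3 := ord_inf g x hinf
        rw [he] at h3
        exact absurd h3 (by simp)
    · rintro ⟨h1, h2⟩
      exact ord_fin g x n hn h1 h2
  · intro he
    rcases dich with ⟨m, hm, h1, h2⟩ | hinf
    · have h3 := ord_fin g x m hm h1 h2
      rw [he] at h3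
      exact absurd h3.symm (by simp)
    · exact hinf
  · exact ord_inf g x
  · rw [Set.encard_ne_zero]
    exact ⟨x, 0, by simp⟩

end Pool.Agent.H40.CP
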