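import Mathlib
import Pool.Agent.H57.CP.Targets

namespace Pool.Agent.H40.CP

open Pool.Agent.H57.CP

theorem ext_mul {A B : V4 →ₗ[ℝ] V4} {g h : Equiv.Perm H3} (hA : Ext A g) (hB : Ext B h) : Ext (A * B) (g * h) := by
  intro x
  rw [Module.End.mul_apply, Equiv.Perm.mul_apply, hB x, hA (h x)]

theorem ext_one : Ext 1 1 := fun _ => rfl

theorem ext_pow {A : V4 →ₗ[ℝ] V4} {g : Equiv.Perm H3} (hA : Ext A g) (n : ℕ) : Ext (A ^ n) (g ^ n) := by
  induction n with
  | zero => simpa using ext_one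
  | succ n ih =>
    rw [pow_succ, pow_succ]
    exact ext_mul ih hA

theorem rot_inv (t : ℝ) : rot (-t) (-1) * rot t (-1) = 1 := by
  ext i j
  have h := Real.sin_sq_add_cos_sq t
  fin_cases i <;> fin_cases j <;> simp [rot] <;> nlinarith [h]

theorem ext_inv {t : ℝ} {S : Equiv.Perm H3} (hS : Ext (rot t (-1)) S) : Ext (rot (-t) (-1)) S⁻¹ := by
  intro x
  have h1 := hS (S⁻¹ x)
  have h2 : S (S⁻¹ x) = x := by simp
  rw [h2] at h1
  rw [← h1, ← Module.End.mul_apply, rot_inv]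
  rfl

theorem par (h1 : T_DET) (h2 : T_SPN) : T_PAR := by
  intro S T t a b n hab hS hT
  have key : ∀ (A : V4 →ₗ[ℝ] V4) (g : Equiv.Perm H3), LinearMap.det A = -1 → Ext A g → g ^ n = 1 → Even n := by
    intro A g hA hg hn
    have h3 : A ^ n = 1 := by
      apply h2
      intro x
      rw [ext_pow hg n x, hn]
      rfl
    have h4 : (-1 : ℝ) ^ n = 1 := by
      rw [← hA, ← map_pow, h3, map_one]
    rcases Nat.even_or_odd n with h | h
    · exact h
    · rw [h.neg_one_pow] at h4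
      norm_num at h4
  refine ⟨key _ S (h1.1 t (-1)).1 hS, key _ _ ?_ (ext_mul hT (ext_inv hS))⟩
  rw [map_mul, (h1.2 a b hab.aa hab.bb hab.ab).1, (h1.1 (-t) (-1)).1]
  norm_num

end Pool.Agent.H40.CP
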