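import Mathlib
import Pool.Agent.H57.CP.Targets

namespace Pool.Agent.H40.CP

open Pool.Agent.H57.CP

theorem cos_pi_div_nonneg {a : ℕ} (ha : 2 ≤ a) : 0 ≤ Real.cos (Real.pi / a) := by
  have ha' : (2 : ℝ) ≤ a := by exact_mod_cast ha
  apply Real.cos_nonneg_of_neg_pi_div_two_le_of_le
  · have : 0 ≤ Real.pi / a := by positivity
    linarith [Real.pi_pos]
  · exact div_le_div_of_nonneg_left Real.pi_pos.le (by norm_num) ha'

theorem cos_pi_div_pos {a : ℕ} (ha : 3 ≤ a) : 0 < Real.cos (Real.pi / a) := by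
  have ha' : (3 : ℝ) ≤ a := by exact_mod_cast ha
  apply Real.cos_pos_of_mem_Ioo
  constructor
  · have : 0 ≤ Real.pi / a := by positivity
    linarith [Real.pi_pos]
  · have h := div_le_div_of_nonneg_left Real.pi_pos.le (by norm_num) ha'
    linarith [Real.pi_pos]

theorem cos_pi_div_lt_one {b : ℕ} (hb : 2 ≤ b) : Real.cos (Real.pi / b) < 1 := by
  have hb' : (2 : ℝ) ≤ b := by exact_mod_cast hb
  have h1 : 0 < Real.pi / b := by positivity
  have h2 : Real.pi / b ≤ Real.pi / 2 := div_le_div_of_nonneg_left Real.pi_pos.le (by norm_num) hb'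
  have h3 := Real.cos_lt_cos_of_nonneg_of_le_pi_div_two le_rfl h2 h1
  simpa using h3

theorem den_pos {b : ℕ} (hb : 2 ≤ b) (u : ℝ) :
    0 < (1 - Real.cos (Real.pi / b)) * Real.cos u ^ 2 + 2 * Real.sin u ^ 2 := by
  have h0 := cos_pi_div_nonneg hb
  have h1 := cos_pi_div_lt_one hb
  have h2 := Real.sin_sq_add_cos_sq u
  nlinarith [sq_nonneg (Real.sin u), sq_nonneg (Real.cos u)]

theorem ssq : T_SSQ := by
  intro a b hab
  obtain ⟨ha, hb, hnot⟩ := hab
  have hC := cos_pi_div_nonneg ha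
  have hD := cos_pi_div_nonneg hb
  have hD1 := cos_pi_div_lt_one hb
  have hCD : 0 < Real.cos (Real.pi / a) + Real.cos (Real.pi / b) := by
    by_cases h2 : a = 2
    · have h3 : 3 ≤ b := by
        rcases Nat.lt_or_ge b 3 with h | h
        · exact absurd ⟨h2, by omega⟩ hnot
        · exact h
      have := cos_pi_div_pos h3
      linarith
    · have h3 : 3 ≤ a := by omega
      have := cos_pi_div_pos h3
      linarith
  have h00 : Ssq a b 0 0 = (Real.cos (Real.pi / a) + Real.cos (Real.pi / b)) / (1 - Real.cos (Real.pi / b)) := by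
    simp [Ssq]
  refine ⟨?_, ?_, ?_, ?_, ?_⟩
  · unfold Ssq
    apply Continuous.div
    · fun_prop
    · fun_prop
    · intro t
      exact (den_pos hb t.1).ne'
  · rw [h00]
    apply div_pos hCD
    linarith
  · rw [h00]
    unfold c0
    have e1 : Real.cos (Real.pi / a) = 2 * Real.cos (Real.pi / (2 * a)) ^ 2 - 1 := by
      rw [← Real.cos_two_mul]
      congr 1
      field_simp
    have e2 : Real.cos (Real.pi / b) = 1 - 2 * Real.sin (Real.pi / (2 * b)) ^ 2 := by
      have h := Real.cos_two_mul (Real.pi / (2 * b))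
      have h' := Real.sin_sq_add_cos_sq (Real.pi / (2 * b))
      have h'' : 2 * (Real.pi / (2 * b)) = Real.pi / b := by field_simp
      rw [h''] at h
      rw [h]
      linarith
    have hs : Real.sin (Real.pi / (2 * b)) ^ 2 ≠ 0 := by
      intro h0
      rw [h0] at e2
      linarith
    have hs' : Real.sin (Real.pi / (2 * b)) ≠ 0 := by
      intro h0
      apply hs
      rw [h0]
      norm_num
    have e3 : 1 - Real.cos (Real.pi / b) = 2 * Real.sin (Real.pi / (2 * b)) ^ 2 := by linarith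
    rw [e3, e1, e2]
    field_simp
    ring
  · intro u w hs
    have q1 := Real.sin_sq_add_cos_sq u
    have q2 := Real.sin_sq_add_cos_sq w
    have r1 : Real.sqrt (Ssq a b u w) ^ 2 = Ssq a b u w := Real.sq_sqrt hs.le
    have r2 : Real.sqrt (1 + Ssq a b u w) ^ 2 = 1 + Ssq a b u w := Real.sq_sqrt (by linarith)
    refine ⟨?_, ?_, ?_⟩
    · simp only [mk, aV, Matrix.cons_val]
      have : Real.sqrt (1 + Ssq a b u w) * Real.sqrt (1 + Ssq a b u w) -
          Real.sqrt (Ssq a b u w) * Real.cos u * (Real.sqrt (Ssq a b u w) * Real.cos u) - 0 * 0 -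
          Real.sqrt (Ssq a b u w) * Real.sin u * (Real.sqrt (Ssq a b u w) * Real.sin u) =
          Real.sqrt (1 + Ssq a b u w) ^ 2 - Real.sqrt (Ssq a b u w) ^ 2 * (Real.sin u ^ 2 + Real.cos u ^ 2) := by ring
      rw [this, r1, r2, q1]
      ring
    · simp only [mk, bV, Matrix.cons_val]
      linear_combination (-Real.cos w ^ 2) * q1 - q2
    · simp only [mk, aV, bV, Matrix.cons_val]
      ring
  · intro u w w' hu hw hww hw'
    have hcu : 0 < Real.cos u := Real.cos_pos_of_mem_Ioo ⟨by linarith [(abs_lt.mp hu).1], (abs_lt.mp hu).2⟩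
    have hsin : Real.sin w < Real.sin w' :=
      Real.sin_lt_sin_of_lt_of_le_pi_div_two (by linarith [Real.pi_pos]) hw'.le hww
    have hsw : 0 ≤ Real.sin w := Real.sin_nonneg_of_nonneg_of_le_pi hw (by linarith [Real.pi_pos])
    unfold Ssq
    apply div_lt_div_of_pos_right _ (den_pos hb u)
    have q1 := Real.sin_sq_add_cos_sq u
    have e1 : Real.sin u ^ 2 * Real.cos w ^ 2 + Real.sin w ^ 2 =
        Real.sin u ^ 2 + Real.cos u ^ 2 * Real.sin w ^ 2 := by
      have q2 := Real.sin_sq_add_cos_sq w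
      linear_combination Real.sin u ^ 2 * q2 - Real.sin w ^ 2 * q1
    have e2 : Real.sin u ^ 2 * Real.cos w' ^ 2 + Real.sin w' ^ 2 =
        Real.sin u ^ 2 + Real.cos u ^ 2 * Real.sin w' ^ 2 := by
      have q2 := Real.sin_sq_add_cos_sq w'
      linear_combination Real.sin u ^ 2 * q2 - Real.sin w' ^ 2 * q1
    rw [e1, e2]
    have h3 : Real.sin w ^ 2 < Real.sin w' ^ 2 := by nlinarith
    have h4 : Real.cos u ^ 2 * Real.sin w ^ 2 < Real.cos u ^ 2 * Real.sin w' ^ 2 :=
      mul_lt_mul_of_pos_left h3 (by positivity)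
    nlinarith

end Pool.Agent.H40.CP
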